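import Pool.Agent.CPT.StmtsD
import Pool.Agent.Helper77_CPT.LIP

/-!
# CPT, row BRI: independence at `ε = 0` gives independence over `E(ε)`
-/

set_option autoImplicit false

namespace Pool.Agent.CPT.H7

open MvPolynomial

variable {E : Type} [Field E] {n : ℕ}

theorem at0_C (a : Polynomial E) : at0 (C a : MvPolynomial (Fin n) (Polynomial E)) =
    C (Polynomial.eval 0 a) := by
  rw [at0, map_C]
  rfl

theorem at0_X (i : Fin n) : at0 (X i : MvPolynomial (Fin n) (Polynomial E)) = X i := by
  rw [at0, map_X]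

theorem at0_add (G H : MvPolynomial (Fin n) (Polynomial E)) : at0 (G + H) = at0 G + at0 H :=
  map_add _ _ _

theorem at0_mul (G H : MvPolynomial (Fin n) (Polynomial E)) : at0 (G * H) = at0 G * at0 H :=
  map_mul _ _ _

theorem at0_pow (G : MvPolynomial (Fin n) (Polynomial E)) (k : ℕ) : at0 (G ^ k) = at0 G ^ k :=
  map_pow _ _ _

theorem at0_zero : at0 (0 : MvPolynomial (Fin n) (Polynomial E)) = 0 := map_zero _

theorem gen1_C (a : Polynomial E) : gen1 (C a : MvPolynomial (Fin n) (Polynomial E)) =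
    C (algebraMap (Polynomial E) (EE E) a) := by
  rw [gen1, map_C]

theorem gen1_X (i : Fin n) : gen1 (X i : MvPolynomial (Fin n) (Polynomial E)) = X i := by
  rw [gen1, map_X]

theorem gen1_add (G H : MvPolynomial (Fin n) (Polynomial E)) : gen1 (G + H) = gen1 G + gen1 H :=
  map_add _ _ _

theorem gen1_mul (G H : MvPolynomial (Fin n) (Polynomial E)) : gen1 (G * H) = gen1 G * gen1 H :=
  map_mul _ _ _

theorem gen1_pow (G : MvPolynomial (Fin n) (Polynomial E)) (k : ℕ) :
    gen1 (G ^ k) = gen1 G ^ k :=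
  map_pow _ _ _

theorem gen1_zero : gen1 (0 : MvPolynomial (Fin n) (Polynomial E)) = 0 := map_zero _

theorem gen1_inj : Function.Injective (gen1 (E := E) (n := n)) :=
  map_injective _ (IsFractionRing.injective (Polynomial E) (EE E))

theorem at0_pderiv (G : MvPolynomial (Fin n) (Polynomial E)) (i : Fin n) :
    at0 (pderiv i G) = pderiv i (at0 G) := by
  rw [at0, at0, pderiv_map]

theorem gen1_pderiv (G : MvPolynomial (Fin n) (Polynomial E)) (i : Fin n) :
    gen1 (pderiv i G) = pderiv i (gen1 G) := by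
  rw [gen1, gen1, pderiv_map]

section al

variable {F' : Type} [Field F']

theorem al_inj {F G : MvPolynomial (Fin n) F'} (h : al F = al G) : F = G :=
  IsFractionRing.injective (MvPolynomial (Fin n) F') (KK n F') h

theorem al_zero : al (0 : MvPolynomial (Fin n) F') = 0 := map_zero _

theorem al_ne {F : MvPolynomial (Fin n) F'} (h : F ≠ 0) : al F ≠ 0 := fun h' =>
  h (al_inj (h'.trans al_zero.symm))

theorem al_add (F G : MvPolynomial (Fin n) F') : al (F + G) = al F + al G := map_add _ _ _

theorem al_mul (F G : MvPolynomial (Fin n) F') : al (F * G) = al F * al G := map_mul _ _ _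

theorem al_pow (F : MvPolynomial (Fin n) F') (k : ℕ) : al (F ^ k) = al F ^ k := map_pow _ _ _

theorem aeval_C' (y : Fin n → KK n F') (a : F') : aeval y (C a) = al (C a) := by
  rw [aeval_C]
  rfl

end al

/-- pairs of values -/
def Good (G : MvPolynomial (Fin n) (Polynomial E)) (z : KK n (EE E)) (w : KK n E) : Prop :=
  ∃ (A : ℕ) (H : MvPolynomial (Fin n) (Polynomial E)), al (gen1 H) = al (gen1 G) ^ A * z ∧
    al (at0 H) = al (at0 G) ^ A * w

theorem good_al (G s : MvPolynomial (Fin n) (Polynomial E)) :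
    Good G (al (gen1 s)) (al (at0 s)) :=
  ⟨0, s, by rw [pow_zero, one_mul], by rw [pow_zero, one_mul]⟩

theorem gen1_ne {G : MvPolynomial (Fin n) (Polynomial E)} (h : at0 G ≠ 0) : gen1 G ≠ 0 := by
  intro h1
  apply h
  have h2 : G = 0 := gen1_inj (h1.trans gen1_zero.symm)
  rw [h2, at0_zero]

theorem good_L {G : MvPolynomial (Fin n) (Polynomial E)} (h : at0 G ≠ 0) (i : Fin n) :
    Good G (L (gen1 G) i) (L (at0 G) i) := by
  refine ⟨1, pderiv i G, ?_, ?_⟩
  · rw [pow_one, L, mul_div_cancel₀ _ (al_ne (gen1_ne h)), gen1_pderiv]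
  · rw [pow_one, L, mul_div_cancel₀ _ (al_ne h), at0_pderiv]

theorem good_add {G : MvPolynomial (Fin n) (Polynomial E)} {z z' : KK n (EE E)} {w w' : KK n E}
    (h : Good G z w) (h' : Good G z' w') : Good G (z + z') (w + w') := by
  obtain ⟨A, H, h1, h2⟩ := h
  obtain ⟨A', H', h1', h2'⟩ := h'
  refine ⟨A + A', H * G ^ A' + H' * G ^ A, ?_, ?_⟩
  · rw [gen1_add, gen1_mul, gen1_mul, gen1_pow, gen1_pow, al_add, al_mul, al_mul, al_pow, al_pow,
      h1, h1']
    ring
  · rw [at0_add, at0_mul, at0_mul, at0_pow, at0_pow, al_add, al_mul, al_mul, al_pow, al_pow,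
      h2, h2']
    ring

theorem good_mul {G : MvPolynomial (Fin n) (Polynomial E)} {z z' : KK n (EE E)} {w w' : KK n E}
    (h : Good G z w) (h' : Good G z' w') : Good G (z * z') (w * w') := by
  obtain ⟨A, H, h1, h2⟩ := h
  obtain ⟨A', H', h1', h2'⟩ := h'
  refine ⟨A + A', H * H', ?_, ?_⟩
  · rw [gen1_mul, al_mul, h1, h1']
    ring
  · rw [at0_mul, al_mul, h2, h2']
    ring

theorem good_zero {G : MvPolynomial (Fin n) (Polynomial E)} (hG : at0 G ≠ 0) {w : KK n E}
    (h : Good G 0 w) : w = 0 := by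
  obtain ⟨A, H, h1, h2⟩ := h
  rw [mul_zero, ← al_zero] at h1
  have h3 : H = 0 := gen1_inj ((al_inj h1).trans gen1_zero.symm)
  rw [h3, at0_zero, al_zero] at h2
  rcases mul_eq_zero.1 h2.symm with h3 | h3
  · exact absurd h3 (pow_ne_zero _ (al_ne hG))
  · exact h3

theorem good_aeval {G : MvPolynomial (Fin n) (Polynomial E)} (h : at0 G ≠ 0)
    (S : MvPolynomial (Fin n) (Polynomial E)) :
    Good G (aeval (L (gen1 G)) (gen1 S)) (aeval (L (at0 G)) (at0 S)) := by
  induction S using MvPolynomial.induction_on with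
  | C a =>
    have h1 := good_al G (C a)
    rw [gen1_C, at0_C] at h1 ⊢
    rw [aeval_C', aeval_C']
    exact h1
  | add p q hp hq =>
    rw [gen1_add, at0_add, map_add, map_add]
    exact good_add hp hq
  | mul_X p j hp =>
    rw [gen1_mul, at0_mul, gen1_X, at0_X, map_mul, map_mul, aeval_X, aeval_X]
    exact good_mul hp (good_L h j)

theorem clear (R : MvPolynomial (Fin n) (EE E)) : ∃ b : Polynomial E, b ≠ 0 ∧
    ∃ S : MvPolynomial (Fin n) (Polynomial E),
      gen1 S = C (algebraMap (Polynomial E) (EE E) b) * R := by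
  induction R using MvPolynomial.induction_on with
  | C a =>
    obtain ⟨x, y, hy, rfl⟩ := IsFractionRing.div_surjective (A := Polynomial E) a
    have hy0 : y ≠ 0 := nonZeroDivisors.ne_zero hy
    have hy1 : algebraMap (Polynomial E) (EE E) y ≠ 0 := fun h =>
      hy0 (IsFractionRing.injective (Polynomial E) (EE E) (h.trans (map_zero _).symm))
    refine ⟨y, hy0, C x, ?_⟩
    rw [gen1_C, ← C_mul, mul_div_cancel₀ _ hy1]
  | add p q hp hq =>
    obtain ⟨b, hb, S, hS⟩ := hp
    obtain ⟨b', hb', S', hS'⟩ := hq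
    refine ⟨b * b', mul_ne_zero hb hb', C b' * S + C b * S', ?_⟩
    rw [gen1_add, gen1_mul, gen1_mul, gen1_C, gen1_C, hS, hS', map_mul, C_mul]
    ring
  | mul_X p j hp =>
    obtain ⟨b, hb, S, hS⟩ := hp
    refine ⟨b, hb, S * X j, ?_⟩
    rw [gen1_mul, gen1_X, hS]
    ring

theorem bri : BriStmt := by
  classical
  intro E _ n N G hG hI
  obtain ⟨m, hm⟩ := hI
  rw [H77.lip E (KK n E) n N (L (at0 G)) m] at hm
  obtain ⟨b, hb⟩ := IsLocalization.exist_integer_multiples_of_finite
    (nonZeroDivisors (MvPolynomial (Fin n) E)) m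
  choose p hp using hb
  have hb0 : al (b : MvPolynomial (Fin n) E) ≠ 0 := al_ne (nonZeroDivisors.ne_zero b.2)
  have hp' : ∀ j, al (p j) = al (b : MvPolynomial (Fin n) E) * m j := by
    intro j
    rw [al, hp j, Algebra.smul_def]
    rfl
  let q : Fin N → MvPolynomial (Fin n) (Polynomial E) := fun j => map Polynomial.C (p j)
  have hq : ∀ j, at0 (q j) = p j := by
    intro j
    show map _ (map _ (p j)) = p j
    rw [map_map]
    have h1 : (Polynomial.evalRingHom (0 : E)).comp Polynomial.C = RingHom.id E := by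
      ext a
      simp
    rw [h1, map_id]
  refine ⟨fun j => al (gen1 (q j)), ?_⟩
  rw [H77.lip (EE E) (KK n (EE E)) n N (L (gen1 G)) (fun j => al (gen1 (q j)))]
  -- one step
  have hU : ¬ IsUnit (C Polynomial.X : MvPolynomial (Fin n) (Polynomial E)) := by
    intro h
    have h1 : IsUnit (at0 (C Polynomial.X : MvPolynomial (Fin n) (Polynomial E))) :=
      h.map (map (Polynomial.evalRingHom (0 : E)))
    rw [at0_C, Polynomial.eval_X, C_0] at h1
    exact not_isUnit_zero h1
  have hX : algebraMap (Polynomial E) (EE E) Polynomial.X ≠ 0 := fun h =>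
    Polynomial.X_ne_zero (IsFractionRing.injective (Polynomial E) (EE E) (h.trans (map_zero _).symm))
  have hal : al (C (algebraMap (Polynomial E) (EE E) Polynomial.X) :
      MvPolynomial (Fin n) (EE E)) ≠ 0 := al_ne fun h => hX (C_eq_zero.1 h)
  have step : ∀ S : Fin N → MvPolynomial (Fin n) (Polynomial E),
      ∑ j, al (gen1 (q j)) * aeval (L (gen1 G)) (gen1 (S j)) = 0 →
      ∃ S' : Fin N → MvPolynomial (Fin n) (Polynomial E), (∀ j, S j = C Polynomial.X * S' j) ∧
        ∑ j, al (gen1 (q j)) * aeval (L (gen1 G)) (gen1 (S' j)) = 0 := by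
    intro S hS
    have hg : ∀ s : Finset (Fin N),
        Good G (∑ j ∈ s, al (gen1 (q j)) * aeval (L (gen1 G)) (gen1 (S j)))
          (∑ j ∈ s, al (p j) * aeval (L (at0 G)) (at0 (S j))) := by
      intro s
      induction s using Finset.induction_on with
      | empty =>
        rw [Finset.sum_empty, Finset.sum_empty]
        have h1 := good_al G 0
        rw [gen1_zero, at0_zero, al_zero, al_zero] at h1
        exact h1
      | insert a s ha ih =>
        rw [Finset.sum_insert ha, Finset.sum_insert ha]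
        refine good_add (good_mul ?_ (good_aeval hG (S a))) ih
        have h1 := good_al G (q a)
        rw [hq] at h1
        exact h1
    have h1 := hg Finset.univ
    rw [hS] at h1
    have h2 := good_zero hG h1
    have h3 : ∑ j, m j * aeval (L (at0 G)) (at0 (S j)) = 0 := by
      have h4 : al (b : MvPolynomial (Fin n) E) *
          ∑ j, m j * aeval (L (at0 G)) (at0 (S j)) = 0 := by
        rw [← h2, Finset.mul_sum]
        refine Finset.sum_congr rfl fun j _ => ?_
        rw [hp' j, mul_assoc]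
      rcases mul_eq_zero.1 h4 with h5 | h5
      · exact absurd h5 hb0
      · exact h5
    have h4 := hm (fun j => at0 (S j)) h3
    have h5 : ∀ j, C Polynomial.X ∣ S j := by
      intro j
      rw [C_dvd_iff_dvd_coeff]
      intro α
      rw [Polynomial.X_dvd_iff, Polynomial.coeff_zero_eq_eval_zero]
      have h6 := congrArg (coeff α) (congrFun h4 j)
      rw [at0, coeff_map] at h6
      exact h6
    choose S' hS' using h5
    refine ⟨S', hS', ?_⟩
    have h6 : al (C (algebraMap (Polynomial E) (EE E) Polynomial.X) :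
        MvPolynomial (Fin n) (EE E)) *
        ∑ j, al (gen1 (q j)) * aeval (L (gen1 G)) (gen1 (S' j)) = 0 := by
      rw [← hS, Finset.mul_sum]
      refine Finset.sum_congr rfl fun j _ => ?_
      rw [hS' j, gen1_mul, gen1_C, map_mul, aeval_C']
      ring
    rcases mul_eq_zero.1 h6 with h5 | h5
    · exact absurd h5 hal
    · exact h5
  have hdvd : ∀ (μ : ℕ) (S : Fin N → MvPolynomial (Fin n) (Polynomial E)),
      ∑ j, al (gen1 (q j)) * aeval (L (gen1 G)) (gen1 (S j)) = 0 →
      ∀ j, (C Polynomial.X : MvPolynomial (Fin n) (Polynomial E)) ^ μ ∣ S j := by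
    intro μ
    induction μ with
    | zero =>
      intro S _ j
      rw [pow_zero]
      exact one_dvd _
    | succ μ ih =>
      intro S hS j
      obtain ⟨S', h1, h2⟩ := step S hS
      rw [h1 j, pow_succ']
      exact mul_dvd_mul_left _ (ih S' h2 j)
  have hmain : ∀ S : Fin N → MvPolynomial (Fin n) (Polynomial E),
      ∑ j, al (gen1 (q j)) * aeval (L (gen1 G)) (gen1 (S j)) = 0 → ∀ j, S j = 0 := by
    intro S hS j
    by_contra hj
    obtain ⟨k, hk⟩ := FiniteMultiplicity.of_not_isUnit hU hj
    exact hk (hdvd (k + 1) S hS j)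
  intro R hR
  choose c hc T hT using fun j => clear (R j)
  let c' : Fin N → Polynomial E := fun j => ∏ i ∈ Finset.univ.erase j, c i
  have hc' : ∀ j, c' j * c j = ∏ i, c i := fun j =>
    Finset.prod_erase_mul _ _ (Finset.mem_univ j)
  have h1 : ∑ j, al (gen1 (q j)) * aeval (L (gen1 G)) (gen1 (C (c' j) * T j)) = 0 := by
    have h2 : ∀ j, al (gen1 (q j)) * aeval (L (gen1 G)) (gen1 (C (c' j) * T j)) =
        al (C (algebraMap (Polynomial E) (EE E) (∏ i, c i)) : MvPolynomial (Fin n) (EE E)) *
          (al (gen1 (q j)) * aeval (L (gen1 G)) (R j)) := by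
      intro j
      rw [gen1_mul, gen1_C, hT j, ← mul_assoc (C _) (C _) (R j), ← C_mul, ← map_mul, hc' j,
        map_mul, aeval_C']
      ring
    rw [Finset.sum_congr rfl fun j _ => h2 j, ← Finset.mul_sum, hR, mul_zero]
  have h2 := hmain _ h1
  funext j
  have h3 := h2 j
  have hcj : (C (c' j) : MvPolynomial (Fin n) (Polynomial E)) ≠ 0 := by
    intro h
    have h4 : c' j = 0 := C_eq_zero.1 h
    exact Finset.prod_ne_zero_iff.2 (fun i _ => hc i) h4
  have h4 : T j = 0 := (mul_eq_zero.1 h3).resolve_left hcj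
  have h5 := hT j
  rw [h4, gen1_zero] at h5
  have h6 : (C (algebraMap (Polynomial E) (EE E) (c j)) : MvPolynomial (Fin n) (EE E)) ≠ 0 := by
    intro h
    have h7 := C_eq_zero.1 h
    exact hc j (IsFractionRing.injective (Polynomial E) (EE E) (h7.trans (map_zero _).symm))
  exact (mul_eq_zero.1 h5.symm).resolve_left h6

end Pool.Agent.CPT.H7
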